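import Pool.Agent.Z15.Q.Stm

set_option autoImplicit false

namespace Pool.Agent.T5h55.Q15.BOCH

open Pool.Agent.Z15.Q

variable {J : Type} {K A : J → Type}

/-- a permutation which moves `0, 1` to `m, m'` -/
theorem exists_perm {n : ℕ} {m m' : Fin (n + 2)} (h : m ≠ m') :
    ∃ σ : Equiv.Perm (Fin (n + 2)), σ 0 = m ∧ σ 1 = m' := by
  have h01 : (0 : Fin (n + 2)) ≠ 1 := by
    intro h0
    have := congrArg Fin.val h0
    simp at this
  have ht : (0 : Fin (n + 2)) ≠ Equiv.swap 0 m m' := by
    intro h0
    have h1 := congrArg (Equiv.swap 0 m) h0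
    rw [Equiv.swap_apply_left, Equiv.swap_apply_self] at h1
    exact h h1
  refine ⟨Equiv.swap 0 m * Equiv.swap 1 (Equiv.swap 0 m m'), ?_, ?_⟩
  · rw [Equiv.Perm.mul_apply, Equiv.swap_apply_of_ne_of_ne h01 ht, Equiv.swap_apply_left]
  · rw [Equiv.Perm.mul_apply, Equiv.swap_apply_left, Equiv.swap_apply_self]

theorem W_eq {n : ℕ} (a : Arr K A (n + 2)) (ha : Anti a) {m m' : Fin (n + 2)} (h : m ≠ m')
    (σ : Equiv.Perm (Fin (n + 2))) (h0 : σ 0 = m) (h1 : σ 1 = m') (b : Fin (n + 2) → Co K A)
    (s s' : Co K A) :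
    a (Fin.cons s (Fin.cons s' fun t => b (σ t.succ.succ))) = ((Equiv.Perm.sign σ : ℤ) : ℂ) *
      a (Function.update (Function.update b m s) m' s') := by
  rw [← ha σ]
  congr 1
  funext t
  refine Fin.cases ?_ (fun t => ?_) t
  · rw [Fin.cons_zero, Function.comp_apply, h0, Function.update_of_ne h, Function.update_self]
  · rw [Fin.cons_succ]
    refine Fin.cases ?_ (fun t => ?_) t
    · rw [Fin.cons_zero, Function.comp_apply, Fin.succ_zero_eq_one, h1, Function.update_self]
    · rw [Fin.cons_succ, Function.comp_apply]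
      have e1 : σ t.succ.succ ≠ m' := by
        rw [← h1]
        intro h2
        have := congrArg Fin.val (σ.injective h2)
        simp at this
      have e2 : σ t.succ.succ ≠ m := by
        rw [← h0]
        intro h2
        have := congrArg Fin.val (σ.injective h2)
        simp at this
      rw [Function.update_of_ne e1, Function.update_of_ne e2]

theorem W_swap {i : ℕ} (a : Arr K A i) (ha : Anti a) {m m' : Fin i} (h : m ≠ m')
    (b : Fin i → Co K A) (s s' : Co K A) :
    a (Function.update (Function.update b m s) m' s') =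
      - a (Function.update (Function.update b m s') m' s) := by
  have h1 := ha (Equiv.swap m m') (Function.update (Function.update b m s') m' s)
  rw [Equiv.Perm.sign_swap h] at h1
  have h2 : (Function.update (Function.update b m s') m' s) ∘ (Equiv.swap m m') =
      Function.update (Function.update b m s) m' s' := by
    funext t
    rw [Function.comp_apply]
    by_cases e1 : t = m
    · rw [e1, Equiv.swap_apply_left, Function.update_self, Function.update_of_ne h,
        Function.update_self]
    · by_cases e2 : t = m'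
      · rw [e2, Equiv.swap_apply_right, Function.update_of_ne h, Function.update_self,
          Function.update_self]
      · rw [Equiv.swap_apply_of_ne_of_ne e1 e2, Function.update_of_ne e2, Function.update_of_ne e1,
          Function.update_of_ne e2, Function.update_of_ne e1]
  rw [h2] at h1
  rw [h1]
  push_cast
  ring

theorem W_con [∀ j, Fintype (K j)] {i : ℕ} (a : Arr K A i) (ha : Anti a) (hv : Van 1 i a)
    {m m' : Fin i} (h : m ≠ m') (b : Fin i → Co K A) (j : J) (α β : A j) :
    ∑ k : K j, a (Function.update (Function.update b m (Sum.inl ⟨j, k, α⟩)) m'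
        (Sum.inr ⟨j, k, β⟩)) = - ∑ k : K j, a (Function.update (Function.update b m
        (Sum.inl ⟨j, k, β⟩)) m' (Sum.inr ⟨j, k, α⟩)) := by
  obtain ⟨n, rfl⟩ : ∃ n, i = n + 2 := by
    have h1 := m.2
    have h2 := m'.2
    have h3 : (m : ℕ) ≠ m' := fun h' => h (Fin.ext h')
    exact ⟨i - 2, by omega⟩
  obtain ⟨σ, h0, h1⟩ := exists_perm h
  have hc : con j α β a = 0 := by
    simp only [Van] at hv
    have := hv j α β
    cases n <;> simpa only [Van] using this
  have hc' := congrFun hc fun t => b (σ t.succ.succ)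
  simp only [con, Pi.zero_apply, W_eq a ha h σ h0 h1] at hc'
  rw [Finset.sum_add_distrib, ← Finset.mul_sum, ← Finset.mul_sum, ← mul_add] at hc'
  rcases mul_eq_zero.1 hc' with h2 | h2
  · exfalso
    rcases Int.units_eq_one_or (Equiv.Perm.sign σ) with h3 | h3 <;> rw [h3] at h2 <;> simp at h2
  · exact eq_neg_of_add_eq_zero_left h2

variable [Fintype J] [∀ j, Fintype (K j)] [∀ j, Fintype (A j)]

theorem sum_update {i : ℕ} (m : Fin i) (f : (Fin i → Co K A) → ℂ) :
    ∑ b : Fin i → Co K A, ∑ t : Co K A, f (Function.update b m t) =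
      (Fintype.card (Co K A) : ℂ) * ∑ b, f b := by
  have h1 : ∑ b : Fin i → Co K A, ∑ t : Co K A, f (Function.update b m t) =
      ∑ z : (Fin i → Co K A) × Co K A, f (Function.update z.1 m z.2) :=
    (Fintype.sum_prod_type fun z : (Fin i → Co K A) × Co K A => f (Function.update z.1 m z.2)).symm
  have h2 : ∑ z : (Fin i → Co K A) × Co K A, f (Function.update z.1 m z.2) =
      ∑ z : (Fin i → Co K A) × Co K A, f z.1 := by
    refine Finset.sum_nbij' (fun z => (Function.update z.1 m z.2, z.1 m))
      (fun z => (Function.update z.1 m z.2, z.1 m)) (fun _ _ => Finset.mem_univ _)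
      (fun _ _ => Finset.mem_univ _) ?_ ?_ ?_
    · rintro ⟨b, t⟩ _
      simp only [Function.update_idem, Function.update_self, Function.update_eq_self]
    · rintro ⟨b, t⟩ _
      simp only [Function.update_idem, Function.update_self, Function.update_eq_self]
    · rintro ⟨b, t⟩ _
      rfl
  rw [h1, h2, Fintype.sum_prod_type]
  simp only [Finset.sum_const, Finset.card_univ, nsmul_eq_mul]
  rw [Finset.mul_sum]

open Classical in
/-- the part of `opP` which belongs to the position `m` -/
noncomputable def pp {i : ℕ} (a : Arr K A i) (j : J) (k l : K j) (m : Fin i)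
    (b : Fin i → Co K A) : ℂ :=
  ∑ α : A j, if b m = Sum.inl ⟨j, k, α⟩ then a (Function.update b m (Sum.inr ⟨j, l, α⟩)) else 0

/-- the part which belongs to the positions `m, m'` -/
noncomputable def TT {i : ℕ} (a : Arr K A i) (j : J) (m m' : Fin i) : ℂ :=
  ∑ b : Fin i → Co K A, ∑ k : K j, ∑ l : K j, pp a j k l m b * starRingEnd ℂ (pp a j l k m' b)

theorem sum_TT {i : ℕ} (a : Arr K A i) (hX : XKill a) (j : J) :
    ∑ m, ∑ m', TT a j m m' = ((- ∑ b : Fin i → Co K A, ∑ k : K j, ∑ l : K j,
      Complex.normSq (opP j k l a b) : ℝ) : ℂ) := by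
  have h1 : ∑ m, ∑ m', TT a j m m' = ∑ b : Fin i → Co K A, ∑ k : K j, ∑ l : K j,
      opP j k l a b * starRingEnd ℂ (opP j l k a b) := by
    simp only [TT]
    rw [Finset.sum_congr rfl fun m _ => Finset.sum_comm, Finset.sum_comm]
    refine Finset.sum_congr rfl fun b _ => ?_
    rw [Finset.sum_congr rfl fun m _ => Finset.sum_comm, Finset.sum_comm]
    refine Finset.sum_congr rfl fun k _ => ?_
    rw [Finset.sum_congr rfl fun m _ => Finset.sum_comm, Finset.sum_comm]
    refine Finset.sum_congr rfl fun l _ => ?_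
    have e1 : opP j k l a b = ∑ m, pp a j k l m b := rfl
    have e2 : opP j l k a b = ∑ m, pp a j l k m b := rfl
    rw [e1, e2, map_sum, Finset.sum_mul_sum]
  rw [h1]
  push_cast
  rw [← Finset.sum_neg_distrib]
  refine Finset.sum_congr rfl fun b _ => ?_
  rw [← Finset.sum_neg_distrib]
  refine Finset.sum_congr rfl fun k _ => ?_
  rw [← Finset.sum_neg_distrib]
  refine Finset.sum_congr rfl fun l _ => ?_
  have h2 : opP j l k a b = - opP j k l a b := by
    have := congrFun (hX j k l) b
    simp only [Pi.add_apply, Pi.zero_apply] at this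
    exact eq_neg_of_add_eq_zero_right this
  rw [h2, map_neg, mul_neg, Complex.mul_conj]

theorem TT_diag {i : ℕ} (a : Arr K A i) (j : J) (m : Fin i) :
    (Fintype.card (Co K A) : ℂ) * TT a j m m = ((∑ b : Fin i → Co K A, ∑ k : K j, ∑ α : A j,
      Complex.normSq (a (Function.update b m (Sum.inr ⟨j, k, α⟩))) : ℝ) : ℂ) := by
  classical
  rw [TT, ← sum_update m]
  push_cast
  refine Finset.sum_congr rfl fun b _ => ?_
  have hp : ∀ (k l : K j) (t : Co K A), pp a j k l m (Function.update b m t) =
      ∑ α : A j, if t = Sum.inl ⟨j, k, α⟩ then a (Function.update b m (Sum.inr ⟨j, l, α⟩))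
        else 0 := by
    intro k l t
    simp only [pp, Function.update_self, Function.update_idem]
  simp only [hp]
  rw [Finset.sum_comm]
  refine Finset.sum_congr rfl fun k _ => ?_
  rw [Finset.sum_comm]
  have h1 : ∀ l : K j, ∑ t : Co K A, (∑ α : A j, if t = Sum.inl ⟨j, k, α⟩ then
      a (Function.update b m (Sum.inr ⟨j, l, α⟩)) else 0) * starRingEnd ℂ (∑ α : A j,
        if t = Sum.inl ⟨j, l, α⟩ then a (Function.update b m (Sum.inr ⟨j, k, α⟩)) else 0) =
      ∑ α : A j, a (Function.update b m (Sum.inr ⟨j, l, α⟩)) * starRingEnd ℂ (∑ α' : A j,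
        if (Sum.inl ⟨j, k, α⟩ : Co K A) = Sum.inl ⟨j, l, α'⟩ then
          a (Function.update b m (Sum.inr ⟨j, k, α'⟩)) else 0) := by
    intro l
    simp only [Finset.sum_mul]
    rw [Finset.sum_comm]
    refine Finset.sum_congr rfl fun α _ => ?_
    simp only [ite_mul, zero_mul]
    rw [Finset.sum_ite_eq']
    simp only [Finset.mem_univ, if_true]
  simp only [h1]
  rw [Finset.sum_comm]
  refine Finset.sum_congr rfl fun α _ => ?_
  rw [Finset.sum_eq_single k]
  · rw [← Complex.mul_conj]
    congr 2
    rw [Finset.sum_eq_single α]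
    · rw [if_pos rfl]
    · intro α' _ hα
      rw [if_neg]
      intro h
      simp only [Sum.inl.injEq, Sigma.mk.injEq, heq_eq_eq, Prod.mk.injEq, true_and] at h
      exact hα h.symm
    · intro h
      exact absurd (Finset.mem_univ _) h
  · intro l _ hl
    have : ∀ α' : A j, (if (Sum.inl ⟨j, k, α⟩ : Co K A) = Sum.inl ⟨j, l, α'⟩ then
          a (Function.update b m (Sum.inr ⟨j, k, α'⟩)) else 0) = 0 := by
      intro α'
      rw [if_neg]
      intro h
      simp only [Sum.inl.injEq, Sigma.mk.injEq, heq_eq_eq, Prod.mk.injEq, true_and] at h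
      exact hl h.1.symm
    simp only [this, Finset.sum_const_zero, map_zero, mul_zero]
  · intro h
    exact absurd (Finset.mem_univ _) h

theorem TT_off {i : ℕ} (a : Arr K A i) (ha : Anti a) (hv : Van 1 i a) (j : J) {m m' : Fin i}
    (h : m ≠ m') :
    (Fintype.card (Co K A) : ℂ) * ((Fintype.card (Co K A) : ℂ) * TT a j m m') =
      ((∑ b : Fin i → Co K A, ∑ α : A j, ∑ β : A j, Complex.normSq (∑ k : K j,
        a (Function.update (Function.update b m (Sum.inl ⟨j, k, α⟩)) m'
          (Sum.inr ⟨j, k, β⟩))) : ℝ) : ℂ) := by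
  classical
  rw [TT, ← sum_update m', ← sum_update m]
  push_cast
  refine Finset.sum_congr rfl fun b _ => ?_
  have hp : ∀ (k l : K j) (t t' : Co K A),
      pp a j k l m (Function.update (Function.update b m t) m' t') =
      ∑ α : A j, if t = Sum.inl ⟨j, k, α⟩ then
        a (Function.update (Function.update b m (Sum.inr ⟨j, l, α⟩)) m' t') else 0 := by
    intro k l t t'
    simp only [pp]
    refine Finset.sum_congr rfl fun α _ => ?_
    rw [Function.update_of_ne h, Function.update_self, Function.update_comm h.symm,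
      Function.update_idem]
  have hp' : ∀ (k l : K j) (t t' : Co K A),
      pp a j k l m' (Function.update (Function.update b m t) m' t') =
      ∑ α : A j, if t' = Sum.inl ⟨j, k, α⟩ then
        a (Function.update (Function.update b m t) m' (Sum.inr ⟨j, l, α⟩)) else 0 := by
    intro k l t t'
    simp only [pp, Function.update_self, Function.update_idem]
  simp only [hp, hp']
  have h1 : ∀ k l : K j, ∑ t : Co K A, ∑ t' : Co K A, (∑ α : A j, if t = Sum.inl ⟨j, k, α⟩ then
      a (Function.update (Function.update b m (Sum.inr ⟨j, l, α⟩)) m' t') else 0) *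
        starRingEnd ℂ (∑ α : A j, if t' = Sum.inl ⟨j, l, α⟩ then
          a (Function.update (Function.update b m t) m' (Sum.inr ⟨j, k, α⟩)) else 0) =
      ∑ α : A j, ∑ β : A j, a (Function.update (Function.update b m (Sum.inr ⟨j, l, α⟩)) m'
        (Sum.inl ⟨j, l, β⟩)) * starRingEnd ℂ (a (Function.update (Function.update b m
          (Sum.inl ⟨j, k, α⟩)) m' (Sum.inr ⟨j, k, β⟩))) := by
    intro k l
    simp only [Finset.sum_mul]
    rw [Finset.sum_congr rfl fun t _ => Finset.sum_comm, Finset.sum_comm]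
    refine Finset.sum_congr rfl fun α _ => ?_
    rw [Finset.sum_comm]
    simp only [ite_mul, zero_mul]
    have e : ∀ t' : Co K A, (∑ t : Co K A, if t = Sum.inl ⟨j, k, α⟩ then
        a (Function.update (Function.update b m (Sum.inr ⟨j, l, α⟩)) m' t') *
        starRingEnd ℂ (∑ α : A j, if t' = Sum.inl ⟨j, l, α⟩ then
          a (Function.update (Function.update b m t) m' (Sum.inr ⟨j, k, α⟩)) else 0) else 0) =
        a (Function.update (Function.update b m (Sum.inr ⟨j, l, α⟩)) m' t') *
        starRingEnd ℂ (∑ β : A j, if t' = Sum.inl ⟨j, l, β⟩ then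
          a (Function.update (Function.update b m (Sum.inl ⟨j, k, α⟩)) m'
            (Sum.inr ⟨j, k, β⟩)) else 0) := by
      intro t'
      rw [Finset.sum_ite_eq']
      simp only [Finset.mem_univ, if_true]
    rw [Finset.sum_congr rfl fun t' _ => e t']
    simp only [map_sum, Finset.mul_sum]
    rw [Finset.sum_comm]
    refine Finset.sum_congr rfl fun β _ => ?_
    have e' : ∀ t' : Co K A, a (Function.update (Function.update b m (Sum.inr ⟨j, l, α⟩)) m' t') *
        starRingEnd ℂ (if t' = Sum.inl ⟨j, l, β⟩ then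
          a (Function.update (Function.update b m (Sum.inl ⟨j, k, α⟩)) m'
            (Sum.inr ⟨j, k, β⟩)) else 0) = if t' = Sum.inl ⟨j, l, β⟩ then
        a (Function.update (Function.update b m (Sum.inr ⟨j, l, α⟩)) m' t') *
        starRingEnd ℂ (a (Function.update (Function.update b m (Sum.inl ⟨j, k, α⟩)) m'
            (Sum.inr ⟨j, k, β⟩))) else 0 := by
      intro t'
      split_ifs
      · rfl
      · rw [map_zero, mul_zero]
    simp only [e']
    rw [Finset.sum_ite_eq']
    simp only [Finset.mem_univ, if_true]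
  have h2 : ∑ t : Co K A, ∑ t' : Co K A, ∑ k : K j, ∑ l : K j, (∑ α : A j,
      if t = Sum.inl ⟨j, k, α⟩ then
      a (Function.update (Function.update b m (Sum.inr ⟨j, l, α⟩)) m' t') else 0) *
        starRingEnd ℂ (∑ α : A j, if t' = Sum.inl ⟨j, l, α⟩ then
          a (Function.update (Function.update b m t) m' (Sum.inr ⟨j, k, α⟩)) else 0) =
      ∑ k : K j, ∑ l : K j, ∑ t : Co K A, ∑ t' : Co K A, (∑ α : A j,
      if t = Sum.inl ⟨j, k, α⟩ then
      a (Function.update (Function.update b m (Sum.inr ⟨j, l, α⟩)) m' t') else 0) *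
        starRingEnd ℂ (∑ α : A j, if t' = Sum.inl ⟨j, l, α⟩ then
          a (Function.update (Function.update b m t) m' (Sum.inr ⟨j, k, α⟩)) else 0) := by
    rw [Finset.sum_congr rfl fun t _ => Finset.sum_comm, Finset.sum_comm]
    refine Finset.sum_congr rfl fun k _ => ?_
    rw [Finset.sum_congr rfl fun t _ => Finset.sum_comm, Finset.sum_comm]
  rw [h2]
  simp only [h1]
  rw [Finset.sum_congr rfl fun k _ => Finset.sum_comm, Finset.sum_comm]
  refine Finset.sum_congr rfl fun α _ => ?_
  rw [Finset.sum_congr rfl fun k _ => Finset.sum_comm, Finset.sum_comm]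
  refine Finset.sum_congr rfl fun β _ => ?_
  rw [← Complex.mul_conj]
  have h3 : ∑ k : K j, a (Function.update (Function.update b m (Sum.inl ⟨j, k, α⟩)) m'
      (Sum.inr ⟨j, k, β⟩)) = ∑ l : K j, a (Function.update (Function.update b m
      (Sum.inr ⟨j, l, α⟩)) m' (Sum.inl ⟨j, l, β⟩)) := by
    rw [W_con a ha hv h b j α β, ← Finset.sum_neg_distrib]
    refine Finset.sum_congr rfl fun l _ => ?_
    rw [W_swap a ha h b (Sum.inr ⟨j, l, α⟩) (Sum.inl ⟨j, l, β⟩)]
  conv_rhs =>
    lhs
    rw [h3]
  rw [map_sum, Finset.sum_mul_sum, Finset.sum_comm]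

theorem t_Q_BOCH : Q_BOCH := by
  intro J K A _ _ _ i a ha hv hX b₀ hb₀
  obtain ⟨m₀, hm₀⟩ : ∃ m, (b₀ m).isRight = true := by
    obtain ⟨m, hm⟩ := Finset.card_pos.1 hb₀
    exact ⟨m, (Finset.mem_filter.1 hm).2⟩
  obtain ⟨⟨j₀, k₀, α₀⟩, hs⟩ := Sum.isRight_iff.1 hm₀
  have hN : (0 : ℝ) < (Fintype.card (Co K A) : ℝ) := by
    exact_mod_cast Fintype.card_pos_iff.2 ⟨b₀ m₀⟩
  have hdiag : ∀ (j : J) (m : Fin i), (Fintype.card (Co K A) : ℝ) * (TT a j m m).re =
      ∑ b : Fin i → Co K A, ∑ k : K j, ∑ α : A j,
      Complex.normSq (a (Function.update b m (Sum.inr ⟨j, k, α⟩))) := by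
    intro j m
    have := congrArg Complex.re (TT_diag a j m)
    rw [Complex.ofReal_re] at this
    rw [← this, ← Complex.ofReal_natCast, Complex.re_ofReal_mul]
  have hpos : ∀ (j : J) (m m' : Fin i), 0 ≤ (TT a j m m').re := by
    intro j m m'
    by_cases h : m = m'
    · subst h
      have h1 : 0 ≤ (Fintype.card (Co K A) : ℝ) * (TT a j m m).re := by
        rw [hdiag]
        exact Finset.sum_nonneg fun b _ => Finset.sum_nonneg fun k _ => Finset.sum_nonneg
          fun α _ => Complex.normSq_nonneg _
      exact nonneg_of_mul_nonneg_right h1 hN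
    · have h1 := congrArg Complex.re (TT_off a ha hv j h)
      rw [Complex.ofReal_re, ← Complex.ofReal_natCast, Complex.re_ofReal_mul,
        Complex.re_ofReal_mul] at h1
      have h2 : 0 ≤ (Fintype.card (Co K A) : ℝ) * ((Fintype.card (Co K A) : ℝ) *
          (TT a j m m').re) := by
        rw [h1]
        exact Finset.sum_nonneg fun b _ => Finset.sum_nonneg fun k _ => Finset.sum_nonneg
          fun α _ => Complex.normSq_nonneg _
      exact nonneg_of_mul_nonneg_right (nonneg_of_mul_nonneg_right h2 hN) hN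
  have hneg : ∑ m, ∑ m', (TT a j₀ m m').re ≤ 0 := by
    have h1 := congrArg Complex.re (sum_TT a hX j₀)
    rw [Complex.ofReal_re] at h1
    simp only [Complex.re_sum] at h1
    rw [h1]
    exact neg_nonpos.2 (Finset.sum_nonneg fun b _ => Finset.sum_nonneg fun k _ =>
      Finset.sum_nonneg fun α _ => Complex.normSq_nonneg _)
  have h1 : (TT a j₀ m₀ m₀).re ≤ 0 := by
    refine le_trans ?_ hneg
    refine le_trans ?_ (Finset.single_le_sum (f := fun m => ∑ m', (TT a j₀ m m').re)
      (fun m _ => Finset.sum_nonneg fun m' _ => hpos j₀ m m') (Finset.mem_univ m₀))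
    exact Finset.single_le_sum (f := fun m' => (TT a j₀ m₀ m').re)
      (fun m' _ => hpos j₀ m₀ m') (Finset.mem_univ m₀)
  have h2 : Complex.normSq (a b₀) ≤ 0 := by
    have h3 : Complex.normSq (a b₀) ≤ (Fintype.card (Co K A) : ℝ) * (TT a j₀ m₀ m₀).re := by
      rw [hdiag]
      refine le_trans ?_ (Finset.single_le_sum (f := fun b : Fin i → Co K A => ∑ k : K j₀,
        ∑ α : A j₀, Complex.normSq (a (Function.update b m₀ (Sum.inr ⟨j₀, k, α⟩))))
        (fun b _ => Finset.sum_nonneg fun k _ => Finset.sum_nonneg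
          fun α _ => Complex.normSq_nonneg _) (Finset.mem_univ b₀))
      refine le_trans ?_ (Finset.single_le_sum (f := fun k : K j₀ =>
        ∑ α : A j₀, Complex.normSq (a (Function.update b₀ m₀ (Sum.inr ⟨j₀, k, α⟩))))
        (fun k _ => Finset.sum_nonneg
          fun α _ => Complex.normSq_nonneg _) (Finset.mem_univ k₀))
      refine le_trans ?_ (Finset.single_le_sum (f := fun α : A j₀ =>
        Complex.normSq (a (Function.update b₀ m₀ (Sum.inr ⟨j₀, k₀, α⟩))))
        (fun α _ => Complex.normSq_nonneg _) (Finset.mem_univ α₀))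
      rw [← hs, Function.update_eq_self]
    refine le_trans h3 ?_
    exact mul_nonpos_of_nonneg_of_nonpos hN.le h1
  exact Complex.normSq_eq_zero.1 (le_antisymm h2 (Complex.normSq_nonneg _))

end Pool.Agent.T5h55.Q15.BOCH
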