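import Pool.Agent.Z15.Q.Stm

set_option autoImplicit false

namespace Pool.Agent.T5h55.Q15.CORE

open Pool.Agent.Z15.Q

section lin

variable {J : Type} {K A : J → Type}

theorem anti_add {i : ℕ} {a a' : Arr K A i} (h : Anti a) (h' : Anti a') : Anti (a + a') := by
  intro σ b
  simp only [Pi.add_apply, h σ b, h' σ b, mul_add]

theorem anti_smul {i : ℕ} {a : Arr K A i} (c : ℂ) (h : Anti a) : Anti (c • a) := by
  intro σ b
  simp only [Pi.smul_apply, h σ b, smul_eq_mul]
  ring

theorem anti_zero {i : ℕ} : Anti (0 : Arr K A i) := by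
  intro σ b
  simp only [Pi.zero_apply, mul_zero]

theorem anti_sum {i : ℕ} {ι : Type} (s : Finset ι) (f : ι → Arr K A i)
    (h : ∀ l ∈ s, Anti (f l)) : Anti (∑ l ∈ s, f l) := by
  classical
  induction s using Finset.induction_on with
  | empty => rw [Finset.sum_empty]; exact anti_zero
  | insert l s hl ih =>
    rw [Finset.sum_insert hl]
    exact anti_add (h l (Finset.mem_insert_self l s))
      (ih fun l' hl' => h l' (Finset.mem_insert_of_mem hl'))

section fin

variable [∀ j, Fintype (K j)]

theorem con_add {i : ℕ} (j : J) (α β : A j) (a a' : Arr K A (i + 2)) :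
    con j α β (a + a') = con j α β a + con j α β a' := by
  funext τ
  simp only [con, Pi.add_apply]
  rw [← Finset.sum_add_distrib]
  exact Finset.sum_congr rfl fun k _ => by ring

theorem con_smul {i : ℕ} (j : J) (α β : A j) (c : ℂ) (a : Arr K A (i + 2)) :
    con j α β (c • a) = c • con j α β a := by
  funext τ
  simp only [con, Pi.smul_apply, smul_eq_mul, Finset.mul_sum]
  exact Finset.sum_congr rfl fun k _ => by ring

theorem van_add : ∀ (c i : ℕ) (a a' : Arr K A i), Van c i a → Van c i a' → Van c i (a + a')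
  | 0, i, a, a', h, h' => by
    cases i <;> simp only [Van] at h h' ⊢ <;> rw [h, h', add_zero]
  | c + 1, 0, a, a', h, h' => by simp only [Van]
  | c + 1, 1, a, a', h, h' => by simp only [Van]
  | c + 1, i + 2, a, a', h, h' => by
    simp only [Van] at h h' ⊢
    intro j α β
    rw [con_add]
    exact van_add c i _ _ (h j α β) (h' j α β)

theorem van_smul : ∀ (c i : ℕ) (z : ℂ) (a : Arr K A i), Van c i a → Van c i (z • a)
  | 0, i, z, a, h => by
    cases i <;> simp only [Van] at h ⊢ <;> rw [h, smul_zero]
  | c + 1, 0, z, a, h => by simp only [Van]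
  | c + 1, 1, z, a, h => by simp only [Van]
  | c + 1, i + 2, z, a, h => by
    simp only [Van] at h ⊢
    intro j α β
    rw [con_smul]
    exact van_smul c i z _ (h j α β)

theorem van_zero : ∀ (c i : ℕ), Van c i (0 : Arr K A i) := by
  intro c i
  induction c generalizing i with
  | zero => cases i <;> simp only [Van]
  | succ c ih =>
    match i with
    | 0 => simp only [Van]
    | 1 => simp only [Van]
    | i + 2 =>
      simp only [Van]
      intro j α β
      have : con j α β (0 : Arr K A (i + 2)) = 0 := by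
        funext τ
        simp only [con, Pi.zero_apply, add_zero, Finset.sum_const_zero]
      rw [this]
      exact ih i

theorem van_sum {c i : ℕ} {ι : Type} (s : Finset ι) (f : ι → Arr K A i)
    (h : ∀ l ∈ s, Van c i (f l)) : Van c i (∑ l ∈ s, f l) := by
  classical
  induction s using Finset.induction_on with
  | empty => rw [Finset.sum_empty]; exact van_zero c i
  | insert l s hl ih =>
    rw [Finset.sum_insert hl]
    exact van_add c i _ _ (h l (Finset.mem_insert_self l s))
      (ih fun l' hl' => h l' (Finset.mem_insert_of_mem hl'))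

end fin

theorem part_add {i : ℕ} (q : ℕ) (a a' : Arr K A i) : part q (a + a') = part q a + part q a' := by
  funext b
  simp only [part, Pi.add_apply]
  split_ifs
  · rfl
  · rw [add_zero]

theorem part_smul {i : ℕ} (q : ℕ) (z : ℂ) (a : Arr K A i) : part q (z • a) = z • part q a := by
  funext b
  simp only [part, Pi.smul_apply]
  split_ifs
  · rfl
  · rw [smul_zero]

theorem part_sum {i : ℕ} {ι : Type} (q : ℕ) (s : Finset ι) (f : ι → Arr K A i) :
    part q (∑ l ∈ s, f l) = ∑ l ∈ s, part q (f l) := by
  funext b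
  simp only [part, Finset.sum_apply]
  split_ifs
  · rfl
  · rw [Finset.sum_const_zero]

theorem part_part {i : ℕ} (q : ℕ) (a : Arr K A i) : part q (part q a) = part q a := by
  funext b
  simp only [part]
  split_ifs <;> rfl

section finA

variable [∀ j, Fintype (A j)]

theorem opP_sum {i : ℕ} {ι : Type} (j : J) (k l : K j) (s : Finset ι) (f : ι → Arr K A i) :
    opP j k l (∑ t ∈ s, f t) = ∑ t ∈ s, opP j k l (f t) := by
  funext b
  simp only [opP, Finset.sum_apply]
  symm
  rw [Finset.sum_comm]
  refine Finset.sum_congr rfl fun m _ => ?_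
  rw [Finset.sum_comm]
  refine Finset.sum_congr rfl fun α _ => ?_
  split_ifs
  · rfl
  · exact Finset.sum_const_zero

theorem opP_smul {i : ℕ} (j : J) (k l : K j) (z : ℂ) (a : Arr K A i) :
    opP j k l (z • a) = z • opP j k l a := by
  funext b
  simp only [opP, Pi.smul_apply, Finset.smul_sum]
  refine Finset.sum_congr rfl fun m _ => Finset.sum_congr rfl fun α _ => ?_
  split_ifs
  · rfl
  · rw [smul_zero]

end finA

end lin

theorem t_Q_COREi : Q_COREi := by
  intro hALG hPB hGR hHW J K A _ _ _ i c ι _ x M hM a₀ ha₀ hv₀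
  classical
  obtain ⟨-, -, hA3⟩ := hALG J K A
  obtain ⟨-, -, hG3, hG4, hG5, hG6, hG7, hG8⟩ := hGR J K A
  set MT : ι → ∀ j, Matrix (A j) (A j) ℝ := fun l j => (M l j).transpose with hMT
  -- linearity
  have eadd : ∀ (N : ι → ∀ j, Matrix (A j) (A j) ℝ) (a a' : Arr K A i),
      eop x N (a + a') = eop x N a + eop x N a' := by
    intro N a a'
    simp only [eop]
    rw [← Finset.sum_add_distrib]
    refine Finset.sum_congr rfl fun l _ => ?_
    rw [(hPB J K A (N l)).2.2.2.2.2.1 i a a', smul_add]
  have ezero : ∀ (N : ι → ∀ j, Matrix (A j) (A j) ℝ), eop x N (0 : Arr K A i) = 0 := by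
    intro N
    have := eadd N 0 0
    rw [add_zero] at this
    exact left_eq_add.1 this
  have esum : ∀ (N : ι → ∀ j, Matrix (A j) (A j) ℝ) (s : Finset ℕ) (f : ℕ → Arr K A i),
      eop x N (∑ q ∈ s, f q) = ∑ q ∈ s, eop x N (f q) := by
    intro N s f
    induction s using Finset.induction_on with
    | empty => simp only [Finset.sum_empty]; exact ezero N
    | insert q s hq ih => rw [Finset.sum_insert hq, Finset.sum_insert hq, eadd, ih]
  by_contra hne
  have hex : ∃ q : ℕ, ∃ a : Arr K A i, Anti a ∧ Van c i a ∧ part q a = a ∧ eop x MT a ≠ 0 := by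
    by_contra hcon
    push Not at hcon
    apply hne
    rw [hG6 i a₀, esum]
    refine Finset.sum_eq_zero fun q _ => ?_
    exact hcon q (part q a₀) (hG5 i q a₀ ha₀) (hG7 c i q a₀ hv₀) (part_part q a₀)
  obtain ⟨a, ha, hv, hp, hne'⟩ := Nat.find_spec hex
  have hmin : ∀ q < Nat.find hex, ∀ a : Arr K A i, Anti a → Van c i a → part q a = a →
      eop x MT a = 0 := by
    intro q hq a h1 h2 h3
    by_contra h4
    exact Nat.find_min hex hq ⟨a, h1, h2, h3, h4⟩
  set q := Nat.find hex with hq
  set u : Arr K A i := eop x MT a with hu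
  have hu1 : Anti u := by
    rw [hu, eop]
    exact anti_sum _ _ fun l _ => anti_smul _ ((hPB J K A (MT l)).2.2.1 i a ha)
  have hu2 : Van c i u := by
    rw [hu, eop]
    exact van_sum _ _ fun l _ => van_smul c i _ _ ((hPB J K A (MT l)).2.2.2.2.2.2.2 c i a hv)
  have hu3 : part q u = u := by
    rw [hu, eop, part_sum]
    refine Finset.sum_congr rfl fun l _ => ?_
    rw [part_smul, ← (hPB J K A (MT l)).2.2.2.2.1 i q a, hp]
  have hop : ∀ (j : J) (k l : K j), opP j k l u = eop x MT (opP j k l a) := by
    intro j k l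
    rw [hu, eop, eop, opP_sum]
    refine Finset.sum_congr rfl fun t _ => ?_
    rw [opP_smul, (hPB J K A (MT t)).2.1 i a j k l]
  have hu4 : XKill u := by
    intro j k l
    rw [hop, hop, ← eadd]
    rcases Nat.eq_zero_or_pos q with h0 | h0
    · rw [h0] at hp
      have h1 := hG4 i a j k l
      have h2 := hG4 i a j l k
      rw [hp] at h1 h2
      rw [h1, h2, add_zero, ezero]
    · obtain ⟨q', hq'⟩ : ∃ q', q = q' + 1 := ⟨q - 1, by omega⟩
      refine hmin q' (by omega) _ ?_ ?_ ?_
      · exact anti_add (hA3 i a j k l ha) (hA3 i a j l k ha)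
      · exact hG8 c i a j k l ha hv
      · rw [hq'] at hp
        rw [part_add, ← hG3 i q' a j k l, ← hG3 i q' a j l k, hp]
  have hu5 : ∀ b, cnt b ≠ q → u b = 0 := by
    intro b hb
    rw [← hu3]
    simp only [part, if_neg hb]
  have hqc : q < c := hHW J K A i q c u hu1 hu4 hu5 hu2 hne'
  have hMu : eop x M u = 0 := by
    refine hM u hu1 fun b hb => hu5 b ?_
    omega
  have hin : ∑ b, u b * starRingEnd ℂ (u b) = 0 := by
    have h1 : ∀ b, u b = ∑ l, (x l : ℂ) * pb (MT l) a b := by
      intro b
      rw [hu, eop, Finset.sum_apply]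
      rfl
    have h2 : ∑ b, u b * starRingEnd ℂ (u b) =
        ∑ l, (x l : ℂ) * ∑ b, pb (MT l) a b * starRingEnd ℂ (u b) := by
      rw [Finset.sum_congr rfl fun l _ => Finset.mul_sum _ _ _, Finset.sum_comm]
      refine Finset.sum_congr rfl fun b _ => ?_
      conv_lhs => rw [h1 b, Finset.sum_mul]
      refine Finset.sum_congr rfl fun l _ => ?_
      rw [← h1 b, mul_assoc]
    rw [h2]
    have h3 : ∀ l, ∑ b, pb (MT l) a b * starRingEnd ℂ (u b) =
        ∑ b, a b * starRingEnd ℂ (pb (M l) u b) := by
      intro l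
      rw [(hPB J K A (MT l)).2.2.2.1 i a u]
      rfl
    simp only [h3]
    rw [Finset.sum_congr rfl fun l _ => Finset.mul_sum _ _ _, Finset.sum_comm]
    refine Finset.sum_eq_zero fun b _ => ?_
    have h4 : ∑ l, (x l : ℂ) * (a b * starRingEnd ℂ (pb (M l) u b)) =
        a b * starRingEnd ℂ (eop x M u b) := by
      have h5 : eop x M u b = ∑ l, (x l : ℂ) * pb (M l) u b := by
        rw [eop, Finset.sum_apply]
        rfl
      rw [h5, map_sum, Finset.mul_sum]
      refine Finset.sum_congr rfl fun l _ => ?_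
      rw [map_mul, Complex.conj_ofReal]
      ring
    rw [h4, hMu, Pi.zero_apply, map_zero, mul_zero]
  apply hne'
  funext b
  have h6 : ∑ b, Complex.normSq (u b) = 0 := by
    have : ((∑ b, Complex.normSq (u b) : ℝ) : ℂ) = 0 := by
      rw [← hin, Complex.ofReal_sum]
      exact Finset.sum_congr rfl fun b _ => (Complex.mul_conj (u b)).symm
    exact_mod_cast this
  have h7 := (Finset.sum_eq_zero_iff_of_nonneg fun b _ => Complex.normSq_nonneg (u b)).1 h6 b
    (Finset.mem_univ b)
  exact Complex.normSq_eq_zero.1 h7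

end Pool.Agent.T5h55.Q15.CORE
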